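import Pool.Agent.TH470.MN.GdPow

/-! Expansions in powers of the equation, with a sequence of bounds for the degrees. -/

set_option autoImplicit false

namespace Pool.Agent.Y665.FW

open Pool.Agent.TH745.MN Pool.Agent.TH603.EL Pool.Agent.TH603.EL.Scal2 Pool.Agent.TH793.NG
  Pool.Agent.TH176.Nag Pool.Agent.TH603.Sur

section
variable {F : Type} [Field F] {R : Polynomial (HK F)}

/-- expansions in powers of the equation with at most `L` powers; the `j`-th section has degree at most `m j` -/
def GdS (R : Polynomial (HK F)) (m : ℕ → ℕ) (L : ℕ) (p : PXY F) : Prop :=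
  ∃ A B : PXY F, (∀ j, A.coeff j = 0 ∨ (A.coeff j).natDegree ≤ m j) ∧
    (∀ j, B.coeff j = 0 ∨ (B.coeff j).natDegree + 2 ≤ m j) ∧ (∀ j, L ≤ j → A.coeff j = 0) ∧
    (∀ j, L ≤ j → B.coeff j = 0) ∧ p = A.comp (hR R) + B.comp (hR R) * Polynomial.X

theorem GdS_zero {m : ℕ → ℕ} {L : ℕ} : GdS R m L (0 : PXY F) :=
  ⟨0, 0, by simp, by simp, by simp, by simp, by simp⟩

theorem GdS_add {m : ℕ → ℕ} {L : ℕ} {p q : PXY F} (hp : GdS R m L p) (hq : GdS R m L q) :
    GdS R m L (p + q) := by
  obtain ⟨A, B, h1, h2, h3, h4, rfl⟩ := hp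
  obtain ⟨A', B', h1', h2', h3', h4', rfl⟩ := hq
  refine ⟨A + A', B + B', ?_, ?_, ?_, ?_, ?_⟩
  · intro j
    rw [Polynomial.coeff_add]
    rcases h1 j with h | h
    · rw [h, zero_add]; exact h1' j
    · rcases h1' j with h' | h'
      · rw [h', add_zero]; right; exact h
      · right
        exact (Polynomial.natDegree_add_le _ _).trans (max_le h h')
  · intro j
    rw [Polynomial.coeff_add]
    rcases h2 j with h | h
    · rw [h, zero_add]; exact h2' j
    · rcases h2' j with h' | h'
      · rw [h', add_zero]; right; exact h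
      · right
        have := Polynomial.natDegree_add_le (B.coeff j) (B'.coeff j)
        have := max_le_iff.1 (le_refl (max (B.coeff j).natDegree (B'.coeff j).natDegree))
        omega
  · intro j hj
    rw [Polynomial.coeff_add, h3 j hj, h3' j hj, add_zero]
  · intro j hj
    rw [Polynomial.coeff_add, h4 j hj, h4' j hj, add_zero]
  · rw [Polynomial.add_comp, Polynomial.add_comp]; ring

theorem GdS_sum {m : ℕ → ℕ} {L : ℕ} {κ : Type*} (t : Finset κ) (f : κ → PXY F)
    (h : ∀ k ∈ t, GdS R m L (f k)) : GdS R m L (∑ k ∈ t, f k) := by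
  classical
  induction t using Finset.induction_on with
  | empty => simpa using GdS_zero
  | insert k t hk ih =>
    rw [Finset.sum_insert hk]
    exact GdS_add (h k (Finset.mem_insert_self _ _))
      (ih fun j hj => h j (Finset.mem_insert_of_mem hj))

theorem GdS_mulh {m : ℕ → ℕ} {L : ℕ} {p : PXY F} (hp : GdS R (fun j => m (j + 1)) L p) :
    GdS R m (L + 1) (p * hR R) := by
  obtain ⟨A, B, h1, h2, h3, h4, rfl⟩ := hp
  refine ⟨A * Polynomial.X, B * Polynomial.X, ?_, ?_, ?_, ?_, ?_⟩
  · intro j
    rcases j with _ | j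
    · left; rw [Polynomial.coeff_mul_X_zero]
    · rw [Polynomial.coeff_mul_X]; exact h1 j
  · intro j
    rcases j with _ | j
    · left; rw [Polynomial.coeff_mul_X_zero]
    · rw [Polynomial.coeff_mul_X]; exact h2 j
  · intro j hj
    obtain ⟨j, rfl⟩ : ∃ j', j = j' + 1 := ⟨j - 1, by omega⟩
    rw [Polynomial.coeff_mul_X]
    exact h3 j (by omega)
  · intro j hj
    obtain ⟨j, rfl⟩ : ∃ j', j = j' + 1 := ⟨j - 1, by omega⟩
    rw [Polynomial.coeff_mul_X]
    exact h4 j (by omega)
  · rw [Polynomial.mul_comp, Polynomial.mul_comp, Polynomial.X_comp]; ring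

theorem GdS_pow (hR' : R.natDegree ≤ 3) (k : ℕ) :
    ∀ (m : ℕ → ℕ) (L : ℕ), (∀ j, j + 1 < L → m (j + 1) + 3 ≤ m j) → k < 2 * L →
      ∀ p : Polynomial (HK F), (p = 0 ∨ p.natDegree + 2 * (k % 2) ≤ m (k / 2)) →
      GdS R m L (Polynomial.C p * Polynomial.X ^ k) := by
  induction k using Nat.strong_induction_on with
  | _ k ih =>
    intro m L hm hL p hp
    rcases k with _ | k
    · refine ⟨Polynomial.C p, 0, ?_, by simp, ?_, by simp, ?_⟩
      · intro j
        rw [Polynomial.coeff_C]
        split_ifs with hj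
        · subst hj
          simpa using hp
        · left; rfl
      · intro j hj
        rw [Polynomial.coeff_C, if_neg (by omega)]
      · simp
    · rcases k with _ | k
      · refine ⟨0, Polynomial.C p, by simp, ?_, by simp, ?_, ?_⟩
        · intro j
          rw [Polynomial.coeff_C]
          split_ifs with hj
          · subst hj
            simpa using hp
          · left; rfl
        · intro j hj
          rw [Polynomial.coeff_C, if_neg (by omega)]
        · simp
      · obtain ⟨L, rfl⟩ : ∃ L', L = L' + 1 := ⟨L - 1, by omega⟩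
        have e1 : Polynomial.C p * Polynomial.X ^ (k + 1 + 1) =
            (Polynomial.C p * Polynomial.X ^ k) * hR R +
              Polynomial.C (p * R) * Polynomial.X ^ k := by
          unfold hR
          rw [Polynomial.C_mul]
          ring
        rw [e1]
        have e2 : (k + 1 + 1) % 2 = k % 2 := by omega
        have e3 : (k + 1 + 1) / 2 = k / 2 + 1 := by omega
        rw [e2, e3] at hp
        refine GdS_add (GdS_mulh (ih k (by omega) (fun j => m (j + 1)) L (fun j hj => hm (j + 1) (by omega))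
          (by omega) p hp)) (ih k (by omega) m (L + 1) hm (by omega) _ ?_)
        rcases hp with h | h
        · left; rw [h, zero_mul]
        · right
          have h2 := Polynomial.natDegree_mul_le (p := p) (q := R)
          have h3 := hm (k / 2) (by omega)
          omega

theorem GdS_pf {m : ℕ → ℕ} {L : ℕ} (hR : R.natDegree ≤ 3) (hm : ∀ j, j + 1 < L → m (j + 1) + 3 ≤ m j)
    {f : (ℤ × ℤ) →₀ HK F}
    (hf : ∀ p ∈ f.support, 0 ≤ p.1 ∧ 0 ≤ p.2 ∧ p.2 < 2 * L ∧ p.1 + 2 * (p.2 % 2) ≤ m (p.2 / 2).toNat) :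
    GdS R m L (pf f) := by
  unfold pf
  apply GdS_sum
  intro p hp
  obtain ⟨h1, h2, h3, h4⟩ := hf p hp
  apply GdS_pow hR
  · exact hm
  · omega
  right
  have h5 := Polynomial.natDegree_C_mul_X_pow_le (f p) p.1.toNat
  have h6 : (p.2 / 2).toNat = p.2.toNat / 2 := by omega
  rw [h6] at h4
  have h7 : ((p.2.toNat % 2 : ℕ) : ℤ) = p.2 % 2 := by omega
  omega

end

end Pool.Agent.Y665.FW
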